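import Pool.Agent.Helper15.NF.Main1
import Pool.Agent.Helper15.NF.FD

/-!
MP_c8f971_gt, Q1: a region of a regular network can collapse under curvature flow in such a way that
the curvature of the non-collapsing curves issuing from it is unbounded near the limit point.
-/

open Set MeasureTheory Filter Topology

namespace Pool.Agent.Results.MP_c8f971_gt.RegionCollapse

open Pool.Agent.Helper15.NF

theorem explicit :
    ∃ (T : ℝ) (F : NetworkFlow 4 2 T) (U : ℝ → Set ℂ) (p : ℂ) (j : Fin 4),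
      0 < T ∧ F.Singular ∧ F.RegionFlow U {0, 1} ∧ F.CollapsesTo U {0, 1} p ∧ F.Issues j {0, 1} ∧
      F.NonCollapsing j ∧
      ∀ δ > 0, ∀ M : ℝ, ∀ s < T, ∃ t ∈ Ico 0 T, s < t ∧ ∃ x ∈ Icc (0:ℝ) 1,
        dist (F.γ j t x) p < δ ∧ M < |F.curv j t x| := by
  obtain ⟨st, T, F, yc, hT, hr100, hCB, hpos, harea, hnear, hunb⟩ := main_analysis
  have ht0 : T / 2 ∈ Ioo 0 T := ⟨by linarith, by linarith⟩
  have hg : ∀ t ∈ Ioo 0 T, F.IsGraph t := fun t ht => (hCB t ht).graph
  have hsep : ∀ t ∈ Ioo 0 T, F.Sep t := by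
    intro t ht
    obtain ⟨y0, _, hN⟩ := hnear t ht
    exact near_sep st F le_rfl ht hN (hg t ht)
  obtain ⟨N, hvtx, h2, hlen, hcurve⟩ := build_net F ht0 hg hsep
  obtain ⟨U, hU, hUin⟩ := lens_region F ht0 hg hsep N hcurve
  have hT' : 0 < T - T / 2 := by linarith
  have hmem : ∀ t ∈ Ico 0 (T - T / 2), T / 2 + t ∈ Ioo 0 T := fun t ht =>
    ⟨by linarith [ht.1], by linarith [ht.2]⟩
  have hsing : ∀ δ > 0, ∀ M : ℝ, ∀ s < T - T / 2, ∃ t ∈ Ico 0 (T - T / 2), s < t ∧
      ∃ x ∈ Icc (0:ℝ) 1, dist (N.γ 2 t x) ⟨0, yc⟩ < δ ∧ M < |N.curv 2 t x| := by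
    intro δ hδ M s hs
    obtain ⟨t, ht, hst, σ, hσ, hd, hk⟩ := hunb δ hδ M (max (T / 2 + s) (T / 2))
      (max_lt (by linarith) (by linarith))
    have h1 : T / 2 + s < t := lt_of_le_of_lt (le_max_left _ _) hst
    have h1' : T / 2 < t := lt_of_le_of_lt (le_max_right _ _) hst
    have htI : t - T / 2 ∈ Ico 0 (T - T / 2) := ⟨by linarith, by linarith [ht.2]⟩
    refine ⟨t - T / 2, htI, by linarith, σ, hσ, ?_, ?_⟩
    · rw [(h2 _ htI σ hσ).1, show T / 2 + (t - T / 2) = t by ring, Complex.dist_eq_re_im]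
      rw [Real.sqrt_lt' hδ]
      simpa [Flow.pos] using hd
    · rw [(h2 _ htI σ hσ).2, show T / 2 + (t - T / 2) = t by ring]
      exact hk
  have hball : ∀ t ∈ Ico 0 (T - T / 2), U t ⊆ Metric.ball ⟨0, yc⟩ (4 * rr T (T / 2 + t)) := by
    intro t ht z hz
    have htI := hmem t ht
    have hr : 0 < rr T (T / 2 + t) := main_rr_pos htI.2
    obtain ⟨y0, hy0, hN⟩ := hnear _ htI
    have hb := near_ball st F le_rfl htI hN
    obtain ⟨σ, hσ, σ', hσ', e1, e2, l1, l2⟩ := hUin t ht z hz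
    have b0 := (hb 0 (by decide)).2 σ hσ
    have b1 := (hb 1 (by decide)).2 σ' hσ'
    have c0 := abs_le.1 b0.2
    have c1 := abs_le.1 b1.2
    have c2 := abs_le.1 hy0
    have hre : |z.re| ≤ 1.3 * rr T (T / 2 + t) := by
      rw [e1]
      exact (le_abs_self _).trans b0.1
    have him : |z.im - yc| ≤ 1.7 * rr T (T / 2 + t) := by
      rw [abs_le]
      constructor <;> linarith [c0.1, c0.2, c1.1, c1.2, c2.1, c2.2]
    rw [Metric.mem_ball, Complex.dist_eq_re_im, Real.sqrt_lt' (by positivity)]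
    have hre2 : z.re ^ 2 ≤ (1.3 * rr T (T / 2 + t)) ^ 2 := by
      rw [← sq_abs]; gcongr
    have him2 : (z.im - yc) ^ 2 ≤ (1.7 * rr T (T / 2 + t)) ^ 2 := by
      rw [← sq_abs]; gcongr
    have hr2 := pow_pos hr 2
    show (z.re - 0) ^ 2 + (z.im - yc) ^ 2 < _
    nlinarith
  have hrlim : ∀ δ > 0, ∀ᶠ t in 𝓝[<] (T - T / 2), t ∈ Ico 0 (T - T / 2) ∧
      rr T (T / 2 + t) < δ := by
    intro δ hδ
    obtain ⟨s, hs, hsm⟩ := main_rr_small (T := T) hδ
    have hm : max (s - T / 2) 0 < T - T / 2 := max_lt (by linarith) hT'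
    filter_upwards [Ioo_mem_nhdsLT hm] with t ht
    refine ⟨⟨(le_max_right _ _).trans ht.1.le, ht.2⟩, hsm _ ?_⟩
    have := lt_of_le_of_lt (le_max_left (s - T / 2) 0) ht.1
    linarith
  refine ⟨T - T / 2, N, U, ⟨0, yc⟩, 2, hT', ?_, hU, ⟨?_, ?_, ?_⟩, ?_, ?_, hsing⟩
  · intro M s hs
    obtain ⟨t, ht, hst, x, hx, _, hk⟩ := hsing 1 one_pos M s hs
    exact ⟨t, ht, hst, 2, x, hx, hk⟩
  · -- area
    rw [ENNReal.tendsto_nhds_zero]
    intro ε hε
    have hc : Tendsto (fun r : ℝ => ENNReal.ofReal (Real.pi * (4 * r) ^ 2)) (𝓝 0) (𝓝 0) := by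
      have h1 : Continuous (fun r : ℝ => ENNReal.ofReal (Real.pi * (4 * r) ^ 2)) :=
        ENNReal.continuous_ofReal.comp (by fun_prop)
      simpa using h1.tendsto 0
    have hev := ENNReal.tendsto_nhds_zero.1 hc ε hε
    rw [Metric.eventually_nhds_iff] at hev
    obtain ⟨δ, hδ, hδε⟩ := hev
    filter_upwards [hrlim δ hδ] with t ht
    have hr : 0 < rr T (T / 2 + t) := main_rr_pos (hmem t ht.1).2
    refine (measure_mono (hball t ht.1)).trans ?_
    have := hδε (y := rr T (T / 2 + t)) (by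
      rw [Real.dist_eq, sub_zero, abs_of_pos hr]
      exact ht.2)
    refine le_trans (le_of_eq ?_) this
    rw [Complex.volume_ball, ENNReal.ofReal_mul Real.pi_pos.le, ENNReal.ofReal_pow (by positivity),
      mul_comm]
    congr 1
    exact (ENNReal.ofReal_coe_nnreal (p := NNReal.pi)).symm
  · intro ε hε
    filter_upwards [hrlim (ε / 4) (by positivity)] with t ht
    exact (hball t ht.1).trans (Metric.ball_subset_ball (by linarith [ht.2]))
  · intro i hi
    rw [Metric.tendsto_nhds]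
    intro ε hε
    filter_upwards [hrlim (ε / 3) (by positivity)] with t ht
    have htI := hmem t ht.1
    obtain ⟨y0, hy0, hN⟩ := hnear _ htI
    have hb := near_ball st F le_rfl htI hN
    have hl := hlen t ht.1
    rcases hi with rfl | hi
    · rw [hl.1, Real.dist_eq, sub_zero, abs_of_pos (by have := F.ell_pos 0 _ htI; positivity)]
      have := (hb 0 (by decide)).1
      linarith [ht.2]
    · have hi1 : i = 1 := hi
      subst hi1
      rw [hl.2.1, Real.dist_eq, sub_zero, abs_of_pos (by have := F.ell_pos 1 _ htI; positivity)]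
      have := (hb 1 (by decide)).1
      linarith [ht.2]
  · -- issues
    refine ⟨by decide, 0, Or.inl rfl, false, false, 0, ?_, ?_⟩ <;> rw [hvtx] <;> rfl
  · -- non-collapsing
    refine ⟨1 / 2, by norm_num, fun t ht => ?_⟩
    have htI := hmem t ht
    rw [(hlen t ht).2.2]
    obtain ⟨y0, hy0, hN⟩ := hnear _ htI
    obtain ⟨_, hXJ, _⟩ := main_XJ le_rfl htI (by norm_num) hN
    have hr0 : rr T (T / 2 + t) ≤ 1 / 100 := (main_rr_anti htI.1.le).trans hr100
    have hX1 := F.X_far _ htI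
    -- the ray has length at least its horizontal extent
    have hmono : ‖F.X 2 (T / 2 + t) 1 - F.X 2 (T / 2 + t) 0‖ ≤ F.ell 2 (T / 2 + t) * ‖(1:ℝ) - 0‖ := by
      have hell := F.ell_pos 2 _ htI
      refine (convex_Icc (0:ℝ) 1).norm_image_sub_le_of_norm_hasDerivWithin_le
        (fun σ hσ => F.X_s 2 _ htI σ hσ) (fun σ hσ => ?_) ⟨le_rfl, zero_le_one⟩
        ⟨zero_le_one, le_rfl⟩
      rw [norm_mul, Real.norm_eq_abs, abs_of_pos hell, Real.norm_eq_abs]
      exact mul_le_of_le_one_right hell.le (Real.abs_cos_le_one _)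
    rw [hX1, Real.norm_eq_abs, sub_zero, norm_one, mul_one] at hmono
    have := (le_abs_self _).trans hmono
    linarith

/-- Q1 (a), and hence Q1, is false: there is a curvature flow of an embedded regular network (a lens
with two curves issuing from it; 4 curves, 2 triple junctions) on `[0,T)` such that a region collapses
to a point `p` at the singular time `T`, while the curvature of a non-collapsing curve `j` issuing from
the region is unbounded in every neighbourhood of `p` as `t → T`. -/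
theorem result :
    (∃ (T : ℝ) (F : NetworkFlow 4 2 T) (U : ℝ → Set ℂ) (p : ℂ) (j : Fin 4),
      0 < T ∧ F.Singular ∧ F.RegionFlow U {0, 1} ∧ F.CollapsesTo U {0, 1} p ∧ F.Issues j {0, 1} ∧
      F.NonCollapsing j ∧
      ∀ δ > 0, ∀ M : ℝ, ∀ s < T, ∃ t ∈ Ico 0 T, s < t ∧ ∃ x ∈ Icc (0:ℝ) 1,
        dist (F.γ j t x) p < δ ∧ M < |F.curv j t x|) ∧
    ¬ ConjectureA ∧ ¬ Conjecture := by
  have hA : ¬ ConjectureA := by
    intro h
    obtain ⟨T, F, U, p, j, hT, hs, hU, hc, hi, hn, hunb⟩ := explicit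
    obtain ⟨δ, hδ, C, hC⟩ := h 4 2 T F U {0, 1} p hT hs hU hc j hi hn p
    obtain ⟨t, ht, _, x, hx, hd, hk⟩ := hunb δ hδ C 0 hT
    exact absurd (hC t ht x hx hd) (not_le.2 hk)
  refine ⟨explicit, hA, fun h => hA ?_⟩
  intro n m T F U B p hT hs hU hc
  exact (h n m T F U B p hT hs hU hc).1

end Pool.Agent.Results.MP_c8f971_gt.RegionCollapse
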